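import Pool.Agent.PetRing.Fin

/-!
# MP_df1a54_co, Q1: the order of the second term of `f(n, k)` for every `k ≥ 2`

Definitions (all in `Pool.Agent.RE26`, file `Pool/Agent/Lib_helper26/RE/Conn.lean`):

* `KConn G k`: `G` is `k`-connected (at least `k + 1` vertices, and deleting fewer than `k` vertices
  leaves a connected graph);
* `rem G k`: the number `r(G)`, the largest size of a set `F` of edges of `G` for which `G - F` is
  `(k - 1)`-connected;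
* `fnk n k`: the number `f(n, k)`, the minimum of `rem G k` over all `k`-connected graphs `G` on
  `Fin n`.
-/

namespace Pool.Agent.Results.MP_df1a54_co.DeficitOrder

open Pool.Agent.RE26

/-- Part 1, for every `k ≥ 2` and `n ≥ 20 k ^ 3`:
`n / (20 k) ≤ n / 2 - f(n, k) ≤ 342 n (log k + 1) ^ 2 / k`.
Part 2: `f(n, 3) ≤ 2 n / 5 + 6` for all `n ≥ 4`.
Part 3, for all `2 ≤ k < n`: `n / 2 - f(n, k) ≥ (k - 4) n / (2 (k ^ 2 - k + 1)) - k ^ 2`. -/
theorem result :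
    (∀ n k : ℕ, 2 ≤ k → 20 * k ^ 3 ≤ n →
      (n : ℝ) / (20 * k) ≤ (n : ℝ) / 2 - fnk n k ∧
      (n : ℝ) / 2 - fnk n k ≤ 342 * n * (Real.log k + 1) ^ 2 / k) ∧
    (∀ n : ℕ, 4 ≤ n → (fnk n 3 : ℝ) ≤ 2 * n / 5 + 6) ∧
    (∀ n k : ℕ, 2 ≤ k → k < n →
      ((k : ℝ) - 4) * n / (2 * (k ^ 2 - k + 1)) - k ^ 2 ≤ (n : ℝ) / 2 - fnk n k) :=
  ⟨fun _ _ hk hn => Pool.Agent.PetRing.order_all hk hn,
    fun _ hn => Pool.Agent.PetRing.three hn,
    fun _ _ hk hkn => Pool.Agent.OddRing.deficit hk hkn⟩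

end Pool.Agent.Results.MP_df1a54_co.DeficitOrder
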