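import Pool.Agent.DenseRg.WFin

/-!
# MP_df1a54_co, Q1: the exact value of `f(n, k)` for `n ≤ 2 k - 12` and for `n ≤ (4 k + 2) / 3`

Definitions (all in `Pool.Agent.RE26`):

* `KConn G k`: `G` is `k`-connected (at least `k + 1` vertices, and deleting fewer than `k` vertices
  leaves a connected graph);
* `rem G k`: the number `r(G)`, the largest size of a set `F` of edges of `G` for which `G - F` is
  `(k - 1)`-connected;
* `fnk n k`: the number `f(n, k)`, the minimum of `rem G k` over all `k`-connected graphs `G` on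
  `Fin n`.
-/

namespace Pool.Agent.Results.MP_df1a54_co.DenseRange

open Pool.Agent.RE26

/-- If `k < n` and (`4 (n - k) ≤ n + 2` or `n + 12 ≤ 2 k`), then
`f(n, k) = ⌈k n / 2⌉ - ⌈(k - 1) n / 2⌉`. -/
theorem result (n k : ℕ) (hkn : k < n) (h : 4 * (n - k) ≤ n + 2 ∨ n + 12 ≤ 2 * k) :
    fnk n k = (k * n + 1) / 2 - ((k - 1) * n + 1) / 2 :=
  Dr.fnk_eq_wide n k hkn h

end Pool.Agent.Results.MP_df1a54_co.DenseRange
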