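import Pool.Agent.Lib_helper26.RE.RingF

/-!
# MP_df1a54_co, Q1: an upper bound for `f(n, k)` for even `k`

The definitions `KConn` (`k`-connected), `rem` (the number `r(G)`) and `fnk` (the number
`f(n, k)`) are in `Pool.Agent.Lib_helper26.RE.Conn`.
-/

namespace Pool.Agent.Results.MP_df1a54_co.EvenUpper

open Pool.Agent.RE26

/-- If `k ≥ 2` is even, `t ≥ 2` and `k t ≤ n ≤ (k + 1) t`, then `f(n, k) ≤ k t / 2 + 1`. -/
theorem result (n k t : ℕ) (hk : Even k) (hk2 : 2 ≤ k) (ht : 2 ≤ t) (h1 : k * t ≤ n)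
    (h2 : n ≤ (k + 1) * t) : fnk n k ≤ k * t / 2 + 1 := by
  obtain ⟨m, hm⟩ := hk
  obtain rfl : k = 2 * m := by omega
  obtain ⟨b, rfl⟩ := Nat.exists_eq_add_of_le h1
  have h3 : (2 * m + 1) * t = 2 * m * t + t := by ring
  have h4 := fnk_le m t b (by omega) ht (by omega)
  have h5 : 2 * m * t / 2 = m * t := by
    rw [mul_assoc]
    exact Nat.mul_div_cancel_left _ (by norm_num)
  rw [h5]
  exact h4

end Pool.Agent.Results.MP_df1a54_co.EvenUpper
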