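import Pool.Agent.DenseRg.SqrtFin
import Pool.Agent.Rem2.All
import Pool.Agent.Rem2.Second

/-!
# MP_df1a54_co, Q1: lower bounds `n / 2 - 3 n / √k` and `n / 2 - O(n (log k) ^ 2 / k)` for `f(n, k)`

Definitions (all in `Pool.Agent.RE26`, file `Pool/Agent/Lib_helper26/RE/Conn.lean`):

* `KConn G k`: `G` is `k`-connected (at least `k + 1` vertices, and deleting fewer than `k` vertices
  leaves a connected graph);
* `rem G k`: the number `r(G)`, the largest size of a set `F` of edges of `G` for which `G - F` is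
  `(k - 1)`-connected;
* `fnk n k`: the number `f(n, k)`, the minimum of `rem G k` over all `k`-connected graphs `G` on
  `Fin n`.
-/

namespace Pool.Agent.Results.MP_df1a54_co.SqrtBound

open Pool.Agent.RE26 Pool.Agent.Rem2

/-- (1) `f(n, k) ≥ n / 2 - 3 n / √k` for all `1 ≤ k < n`.
(2) For all `2 ≤ k < n`: `(n / 2) (1 - 684 (log k + 1) ^ 2 / k) ≤ f(n, k)`,
`((k - 2) n + 2) / (4 k - 6) ≤ f(n, k)` and `f(n, k) ≤ ⌈k n / 2⌉ - ⌈(k - 1) n / 2⌉`.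
(3) For even `k ≥ 2` and `n ≥ 2 (k + 1) (k + 2)`:
`n / (4 (k + 1)) ≤ n / 2 - f(n, k) ≤ 342 n (log k + 1) ^ 2 / k`.
(4) `f(n, k) ≥ (J / (2 J + 1)) (1 - (12 J + 9) / (k - 1)) n` for all `J`, written without division.
(5) `f(n, k) ≥ (k - 4) n / (3 (k - 1))` for all `3 ≤ k < n`.
(6) `f(n, k) ≥ k - 13` for all `n ≥ 2 k - 12`. -/
theorem result :
    (∀ n k : ℕ, 1 ≤ k → k < n → (n : ℝ) / 2 - 3 * n / Real.sqrt k ≤ fnk n k) ∧
    (∀ n k : ℕ, 2 ≤ k → k < n →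
      (n : ℝ) / 2 * (1 - 684 * (Real.log k + 1) ^ 2 / k) ≤ (fnk n k : ℝ) ∧
      (k - 2) * n + 2 ≤ (4 * k - 6) * fnk n k ∧
      fnk n k ≤ (k * n + 1) / 2 - ((k - 1) * n + 1) / 2) ∧
    (∀ n k : ℕ, Even k → 2 ≤ k → 2 * (k + 1) * (k + 2) ≤ n →
      (n : ℝ) / (4 * (k + 1)) ≤ (n : ℝ) / 2 - fnk n k ∧
      (n : ℝ) / 2 - fnk n k ≤ 342 * n * (Real.log k + 1) ^ 2 / k) ∧
    (∀ n k J : ℕ, 1 ≤ k → k < n →
      J * ((k - 1 - (12 * J + 9)) * n) ≤ (2 * J + 1) * ((k - 1) * fnk n k)) ∧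
    (∀ n k : ℕ, 3 ≤ k → k < n → (k - 4) * n ≤ 3 * ((k - 1) * fnk n k)) ∧
    (∀ n k : ℕ, 1 ≤ k → k < n → 2 * k ≤ n + 12 → k - 13 ≤ fnk n k) :=
  ⟨Dr.sqrt_bound, (second slot).1, (second slot).2, fun n k J hk hkn => Dr.fnk_chain n k hk hkn J,
    Dr.fnk_third, Dr.fnk_ge⟩

end Pool.Agent.Results.MP_df1a54_co.SqrtBound
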